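import Pool.Agent.KSX.Asm2

/-!
# MP_d985bf_lc: cell-probe lower bounds for `k`-set disjointness with exponent `2 k / T`
-/

namespace Pool.Agent.Results.MP_d985bf_lc.FullWordsTradeoff

open Pool.Agent.KSX

/-- For `k ≥ 2` and `ε > 0` there is `C` such that for all `N, S ≥ 1`, `w` and `T ≥ 2` every data
structure for `k`-set disjointness on families of total size at most `N`, with `S` cells of `w` bits,
at most `T` adaptive probes and error at most `1 / (C N ^ ε)` for every query, satisfies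
`N ^ (2 k - ε) ≤ C (4 ^ w) ^ ⌈T / 2⌉ S ^ T`. With `T = w = 1` and `S = N ^ k` there is one without
errors. -/
theorem result (k : ℕ) (hk : 2 ≤ k) :
    (∀ ε : ℝ, 0 < ε → ∃ C : ℝ, ∀ (N S w T : ℕ) (δ : ℝ), 1 ≤ N → 1 ≤ S → 2 ≤ T →
      C * (N : ℝ) ^ ε * δ ≤ 1 → Nonempty (Scheme k N S w T δ) →
      (N : ℝ) ^ (2 * (k : ℝ) - ε) ≤ C * (((4 : ℝ) ^ w) ^ ((T + 1) / 2) * (S : ℝ) ^ T)) ∧
    ∀ N : ℕ, Nonempty (Scheme k N (N ^ k) 1 1 0) :=
  ⟨fun ε hε => all k ε hk hε, fun N => t_UPP k N⟩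

end Pool.Agent.Results.MP_d985bf_lc.FullWordsTradeoff
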