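import Pool.Agent.Lib_helper20.SD.Main

/-!
# MP_d985bf_lc: data structures for `k`-set disjointness whose cells depend on few sets
-/

namespace Pool.Agent.Results.MP_d985bf_lc.LocalCells

open Pool.Agent.Lib_helper20.SD
open Pool.Agent.Lib_helper62.PToda

/-- For every `k ≥ 2` there is a constant `C` such that for families of `m` sets with `a` elements
(`a ≥ C (w T + 1)`, universe of size `u ≥ C a`, total size `N = m a`), every data structure with
`S` cells of `w` bits and nondeterministic queries with `T` steps, the cell `c` depending only on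
the sets with index in `dep c`, satisfies `m (m-1) ⋯ (m-k+1) ≤ ∑ c, |dep c| (|dep c|-1) ⋯`, and
`N ^ k ≤ S (k s a) ^ k` if all `|dep c|` are at most `s`. The first bound is attained, with
`w = T = 1`. -/
theorem result (k : ℕ) (hk : 2 ≤ k) :
    (∃ C : ℕ, ∀ m a u S w T : ℕ, C * (w * T + 1) ≤ a → C * a ≤ u →
      ∀ D : Scheme k m a u S w T,
        m.descFactorial k ≤ ∑ c, (D.dep c).card.descFactorial k ∧
        ∀ s, (∀ c, (D.dep c).card ≤ s) → k ≤ m → (m * a) ^ k ≤ S * (k * s * a) ^ k) ∧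
    ∀ m a u : ℕ, ∃ D : Scheme k m a u (m.choose k) 1 1,
      ∑ c, (D.dep c).card.descFactorial k = m.descFactorial k := by
  obtain ⟨d, rfl⟩ : ∃ d, k = d + 1 := ⟨k - 1, by omega⟩
  have hd : 0 < d := by omega
  refine ⟨⟨ptr d ^ d + d + 3, fun m a u S w T ha hu D => ?_⟩, fun m a u => exists_scheme _ m a u⟩
  have ha' : (w * T + 1) * ptr d ^ d ≤ a := by
    refine le_trans ?_ ha
    rw [mul_comm]
    exact Nat.mul_le_mul_right _ (by omega)
  have hu' : (w * T + 1) * ptr d ^ d * 2 + (d + 1) * a ≤ u := by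
    refine le_trans ?_ hu
    calc (w * T + 1) * ptr d ^ d * 2 + (d + 1) * a ≤ a * 2 + (d + 1) * a :=
          Nat.add_le_add_right (Nat.mul_le_mul_right _ ha') _
      _ = (d + 3) * a := by ring
      _ ≤ (ptr d ^ d + d + 3) * a := Nat.mul_le_mul_right _ (by omega)
  have h := count D fun q hq => full_cell hd D ha' hu' q hq
  refine ⟨h, fun s hs hm => ?_⟩
  have h1 : ∑ c, (D.dep c).card.descFactorial (d + 1) ≤ S * s ^ (d + 1) := by
    refine (Finset.sum_le_card_nsmul _ _ (s ^ (d + 1)) fun c _ =>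
      (Nat.descFactorial_le_pow _ _).trans (Nat.pow_le_pow_left (hs c) _)).trans ?_
    rw [Finset.card_univ, Fintype.card_fin, smul_eq_mul]
  calc (m * a) ^ (d + 1) = m ^ (d + 1) * a ^ (d + 1) := mul_pow _ _ _
    _ ≤ ((d + 1) ^ (d + 1) * m.descFactorial (d + 1)) * a ^ (d + 1) :=
        Nat.mul_le_mul_right _ (pow_le_descFactorial hm)
    _ ≤ ((d + 1) ^ (d + 1) * (S * s ^ (d + 1))) * a ^ (d + 1) :=
        Nat.mul_le_mul_right _ (Nat.mul_le_mul_left _ (h.trans h1))
    _ = S * ((d + 1) * s * a) ^ (d + 1) := by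
        rw [mul_pow, mul_pow]
        ring

end Pool.Agent.Results.MP_d985bf_lc.LocalCells
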