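import Pool.Agent.Lib_helper64.KSD.Final

/-!
# MP_d985bf_lc: cell-probe lower bound for `k`-set disjointness
-/

namespace Pool.Agent.Results.MP_d985bf_lc.ProbeTradeoff

open Pool.Agent.Lib_helper64.KSD

/-- The table of all answers. -/
theorem exists_scheme (k N : ℕ) : Nonempty (Scheme k N (N ^ k) 1 1) := by
  classical
  set e : (Fin k → Fin N) ≃ Fin (N ^ k) := finFunctionFinEquiv with he
  refine ⟨{ mem := fun F c => if ∀ x, ¬ ∀ i, x ∈ F (e.symm c i) then 1 else 0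
            alg := fun q => Alg.probe (e q) fun x => Alg.answer (decide (x = 1))
            within := fun q => fun _ => trivial
            correct := ?_ }⟩
  intro F _ q _
  change (decide ((if ∀ x, ¬ ∀ i, x ∈ F (e.symm (e q) i) then (1 : Fin (2 ^ 1)) else 0) = 1) =
    true) ↔ _
  rw [Equiv.symm_apply_apply]
  by_cases h : ∀ x, ¬ ∀ i, x ∈ F (q i)
  · rw [if_pos h]
    simp [h]
  · rw [if_neg h]
    have h01 : ¬ (0 : Fin (2 ^ 1)) = 1 := by decide
    exact ⟨fun h' => absurd (of_decide_eq_true h') h01, fun h' => absurd h' h⟩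

/-- For every `k ≥ 2` there is `C` such that for all `N, S, w, T ≥ 1` every data structure for
`k`-set disjointness on families of total size at most `N`, with `S` cells of `w` bits and
(nondeterministic, adaptive) queries that read at most `T` cells, has
`S ≥ N ^ (1 + (k - 1) / T) / (C (w + log N + 1)) ^ C`. With `T = w = 1` and `S = N ^ k` there is
one. -/
theorem result (k : ℕ) (hk : 2 ≤ k) :
    (∃ C : ℕ, ∀ N S w T : ℕ, 1 ≤ N → 1 ≤ S → 1 ≤ T → Nonempty (Scheme k N S w T) →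
      (N : ℝ) ^ (1 + ((k : ℝ) - 1) / T) ≤ ((C : ℝ) * (w + Nat.log 2 N + 1)) ^ C * S) ∧
    ∀ N : ℕ, Nonempty (Scheme k N (N ^ k) 1 1) := by
  refine ⟨?_, fun N => exists_scheme k N⟩
  obtain ⟨κ, rfl⟩ : ∃ κ, k = κ + 1 := ⟨k - 1, by omega⟩
  have hκ : 0 < κ := by omega
  refine ⟨64 * (κ + 1) * (κ + 1), fun N S w T hN hS hT ⟨D⟩ => ?_⟩
  have h := final_bound hκ hN hS hT D
  set C : ℕ := 64 * (κ + 1) * (κ + 1) with hC
  set l : ℕ := w + Nat.log 2 N + 1 with hl
  have h1 : (64 * (κ + 1) * l) ^ ((6 * κ + 10) * (κ + 1) * T) ≤ ((C * l) ^ C) ^ T := by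
    rw [← pow_mul]
    refine pow_mono_aux (Nat.one_le_iff_ne_zero.2 (by positivity)) ?_ ?_ T
    · refine Nat.mul_le_mul_right _ ?_
      exact Nat.le_mul_of_pos_right _ (by omega)
    · exact Nat.mul_le_mul_right _ (by omega)
  have h2 : N ^ (T + κ) ≤ ((C * l) ^ C * S) ^ T := by
    rw [mul_pow]
    exact h.trans (Nat.mul_le_mul_right _ h1)
  have h3 : (N : ℝ) ^ (T + κ) ≤ (((C : ℝ) * l) ^ C * S) ^ T := by exact_mod_cast h2
  have hN0 : (0 : ℝ) ≤ N := Nat.cast_nonneg N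
  have hT0 : (0 : ℝ) < T := by exact_mod_cast hT
  have h4 : (N : ℝ) ^ (1 + (((κ + 1 : ℕ) : ℝ) - 1) / T) = ((N : ℝ) ^ (T + κ)) ^ ((1 : ℝ) / T) := by
    rw [← Real.rpow_natCast (N : ℝ) (T + κ), ← Real.rpow_mul hN0]
    congr 1
    push_cast
    field_simp
    ring
  have h5 : ((((C : ℝ) * l) ^ C * S) ^ T) ^ ((1 : ℝ) / T) = ((C : ℝ) * l) ^ C * S := by
    have h6 : (0 : ℝ) ≤ ((C : ℝ) * l) ^ C * S := by positivity
    rw [← Real.rpow_natCast (((C : ℝ) * l) ^ C * S) T, ← Real.rpow_mul h6,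
      mul_one_div_cancel hT0.ne', Real.rpow_one]
  have h7 : (l : ℝ) = w + Nat.log 2 N + 1 := by
    rw [hl]
    push_cast
    ring
  rw [h4, ← h7]
  calc ((N : ℝ) ^ (T + κ)) ^ ((1 : ℝ) / T) ≤ ((((C : ℝ) * l) ^ C * S) ^ T) ^ ((1 : ℝ) / T) :=
        Real.rpow_le_rpow (by positivity) h3 (by positivity)
    _ = _ := h5

end Pool.Agent.Results.MP_d985bf_lc.ProbeTradeoff
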