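import Pool.Agent.Lib_helper81.KRT.Fin
import Pool.Agent.Lib_helper81.KSW.Bound

/-!
# MP_d985bf_lc: randomized cell-probe lower bound for `k`-set disjointness, full words
-/

namespace Pool.Agent.Results.MP_d985bf_lc.RandomizedTradeoff

open Pool.Agent.Lib_helper81.KSW

/-- For every `k ≥ 2` there is `C` such that for all `N, S, T ≥ 1`, all `w` and `0 < γ ≤ 1 / 2`
every randomized data structure for `k`-set disjointness on families of total size at most `N`,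
with `S` cells of `w` bits, at most `T` adaptive probes and error at most `1 / 2 - γ` for every
query, has `S ≥ N ^ (1 + (k - 1) / T) / (C (w + log N + 1) / γ) ^ C`. With `T = w = 1` and
`S = N ^ k` there is one without errors. -/
theorem result (k : ℕ) (hk : 2 ≤ k) :
    (∃ C : ℕ, ∀ (N S w T : ℕ) (γ : ℝ), 1 ≤ N → 1 ≤ S → 1 ≤ T → 0 < γ → γ ≤ 1 / 2 →
      Nonempty (Scheme k N S w T γ) →
      (N : ℝ) ^ (1 + ((k : ℝ) - 1) / T) ≤ (C * ((w + Nat.log 2 N + 1) / γ)) ^ C * S) ∧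
    ∀ N : ℕ, Nonempty (Scheme k N (N ^ k) 1 1 (1 / 2)) := by
  refine ⟨?_, fun N => exists_scheme k N⟩
  obtain ⟨κ, rfl⟩ : ∃ κ, k = κ + 1 := ⟨k - 1, by omega⟩
  have hκ : 0 < κ := by omega
  obtain ⟨C, hC⟩ : ∃ C : ℕ, C = 128 * (κ + 1) ^ 2 := ⟨_, rfl⟩
  refine ⟨C, fun N S w T γ hN hS hT hγ hγ1 ⟨D⟩ => ?_⟩
  -- the bound for the bias
  obtain ⟨G, hG⟩ : ∃ G : ℕ, G = ⌈1 / γ⌉₊ := ⟨_, rfl⟩
  have hg2 : 2 ≤ 1 / γ := by
    rw [le_div_iff₀ hγ]
    linarith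
  have hG1 : 1 / γ ≤ G := by
    rw [hG]
    exact Nat.le_ceil _
  have hG2 : 2 ≤ G := by
    have : (2 : ℝ) ≤ G := hg2.trans hG1
    exact_mod_cast this
  have hG3 : (G : ℝ) ≤ 2 * (1 / γ) := by
    have : (G : ℝ) < 1 / γ + 1 := by
      rw [hG]
      exact Nat.ceil_lt_add_one (by positivity)
    linarith
  have hG0 : (0 : ℝ) < G := by linarith
  have hGγ : 1 / (G : ℝ) ≤ γ := by
    rw [div_le_iff₀ hG0]
    rw [div_le_iff₀ hγ] at hG1
    linarith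
  have h := Pool.Agent.Lib_helper81.KRT.final_bound hκ hN hS hT hG2 γ hGγ D
  obtain ⟨l, hl⟩ : ∃ l : ℝ, l = w + Nat.log 2 N + 1 := ⟨_, rfl⟩
  rw [← hl]
  have hl1 : 1 ≤ l := by
    have h1 : (0 : ℝ) ≤ (w : ℝ) := Nat.cast_nonneg _
    have h2 : (0 : ℝ) ≤ (Nat.log 2 N : ℝ) := Nat.cast_nonneg _
    linarith
  have hκ1 : (1 : ℝ) ≤ (κ : ℝ) + 1 := by
    have : (0 : ℝ) ≤ (κ : ℝ) := Nat.cast_nonneg _
    linarith
  have hCr : (C : ℝ) = 128 * ((κ : ℝ) + 1) ^ 2 := by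
    rw [hC]
    push_cast
    ring
  have hlγ : 2 ≤ l / γ := by
    rw [le_div_iff₀ hγ]
    linarith
  have hCκ : 128 * ((κ : ℝ) + 1) ≤ C := by
    rw [hCr]
    nlinarith
  have hC1 : (1 : ℝ) ≤ C * (l / γ) := by
    have h1 : (1 : ℝ) ≤ C := by linarith
    calc (1 : ℝ) = 1 * 1 := (mul_one 1).symm
      _ ≤ C * (l / γ) := mul_le_mul h1 (by linarith) zero_le_one (by linarith)
  have h0 : ((64 * (κ + 1) * (w + Nat.log 2 N + 1) * G : ℕ) : ℝ) ≤ C * (l / γ) := by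
    have h1 : ((64 * (κ + 1) * (w + Nat.log 2 N + 1) * G : ℕ) : ℝ) =
        64 * ((κ : ℝ) + 1) * l * G := by
      push_cast
      rw [hl]
    rw [h1]
    calc 64 * ((κ : ℝ) + 1) * l * G ≤ 64 * ((κ : ℝ) + 1) * l * (2 * (1 / γ)) :=
          mul_le_mul_of_nonneg_left hG3 (by positivity)
      _ = 128 * ((κ : ℝ) + 1) * (l / γ) := by ring
      _ ≤ C * (l / γ) := mul_le_mul_of_nonneg_right hCκ (by positivity)
  have h3 : (N : ℝ) ^ (T + κ) ≤ (((C : ℝ) * (l / γ)) ^ C * S) ^ T := by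
    calc (N : ℝ) ^ (T + κ) ≤
          ((64 * (κ + 1) * (w + Nat.log 2 N + 1) * G : ℕ) : ℝ) ^ (25 * (κ + 1) ^ 2 * T) *
            (S : ℝ) ^ T := by exact_mod_cast h
      _ ≤ ((C : ℝ) * (l / γ)) ^ (C * T) * (S : ℝ) ^ T := by
          refine mul_le_mul_of_nonneg_right ?_ (by positivity)
          calc ((64 * (κ + 1) * (w + Nat.log 2 N + 1) * G : ℕ) : ℝ) ^ (25 * (κ + 1) ^ 2 * T)
              ≤ ((C : ℝ) * (l / γ)) ^ (25 * (κ + 1) ^ 2 * T) :=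
                pow_le_pow_left₀ (Nat.cast_nonneg _) h0 _
            _ ≤ ((C : ℝ) * (l / γ)) ^ (C * T) := by
                refine pow_le_pow_right₀ hC1 (Nat.mul_le_mul_right _ ?_)
                rw [hC]
                exact Nat.mul_le_mul_right _ (by norm_num)
      _ = (((C : ℝ) * (l / γ)) ^ C * S) ^ T := by
          rw [pow_mul ((C : ℝ) * (l / γ)) C T, ← mul_pow]
  have hN0 : (0 : ℝ) ≤ N := Nat.cast_nonneg N
  have hT0 : (0 : ℝ) < T := by exact_mod_cast hT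
  have h4 : (N : ℝ) ^ (1 + (((κ + 1 : ℕ) : ℝ) - 1) / T) = ((N : ℝ) ^ (T + κ)) ^ ((1 : ℝ) / T) := by
    rw [← Real.rpow_natCast (N : ℝ) (T + κ), ← Real.rpow_mul hN0]
    congr 1
    push_cast
    field_simp
    ring
  have h5 : ((((C : ℝ) * (l / γ)) ^ C * S) ^ T) ^ ((1 : ℝ) / T) = ((C : ℝ) * (l / γ)) ^ C * S := by
    have h6 : (0 : ℝ) ≤ ((C : ℝ) * (l / γ)) ^ C * S := by positivity
    rw [← Real.rpow_natCast (((C : ℝ) * (l / γ)) ^ C * S) T, ← Real.rpow_mul h6,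
      mul_one_div_cancel hT0.ne', Real.rpow_one]
  rw [h4]
  calc ((N : ℝ) ^ (T + κ)) ^ ((1 : ℝ) / T)
      ≤ ((((C : ℝ) * (l / γ)) ^ C * S) ^ T) ^ ((1 : ℝ) / T) :=
        Real.rpow_le_rpow (by positivity) h3 (by positivity)
    _ = _ := h5

end Pool.Agent.Results.MP_d985bf_lc.RandomizedTradeoff
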